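import Pool.Agent.Q34.GrLL

/-!
# MP_15ac55_ag, Q1: minimal relation counts stabilise along diagonals

For all `d₀, n₀` the sequence `k ↦ 𝔯_{d₀+2k, n₀+k}` is eventually constant.

The norm `nrm`, the algebra `Gr α = gr ℚ[S_α]`, its subalgebra `cls α` of class functions and the
classes `del α i = δ_i` are defined in `Pool.Agent.Q34.GrNorm`, `Pool.Agent.Q34.GrAlg` and
`Pool.Agent.Q34.GrGen`.
-/

set_option autoImplicit false

namespace Pool.Agent.Results.MP_15ac55_ag.Stabilisation

open GrSym Module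

/-- The homomorphism `φ_d : ℚ[X_1, …, X_m] → A(d)`, `m = ⌊d/2⌋`, which sends `X_i` to `δ_i(d)`.
(The variable `X_i` is `MvPolynomial.X ⟨i - 1, _⟩`.) -/
noncomputable def phi (d : ℕ) : MvPolynomial (Fin (d / 2)) ℚ →ₐ[ℚ] cls (Fin d) :=
  MvPolynomial.aeval (fun i => del (Fin d) ((i : ℕ) + 1))

/-- The ideal `I_d` of relations. -/
noncomputable def relIdeal (d : ℕ) : Ideal (MvPolynomial (Fin (d / 2)) ℚ) := RingHom.ker (phi d)

/-- The ideal `P_+` of polynomials without constant term. -/
noncomputable def plusIdeal (d : ℕ) : Ideal (MvPolynomial (Fin (d / 2)) ℚ) :=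
  RingHom.ker (MvPolynomial.constantCoeff (σ := Fin (d / 2)) (R := ℚ))

/-- The degree of `X_i` is `i`. -/
def wd (d : ℕ) : Fin (d / 2) → ℕ := fun i => (i : ℕ) + 1

/-- The homogeneous elements of degree `n` of an ideal `J`. -/
noncomputable def piece (d n : ℕ) (J : Ideal (MvPolynomial (Fin (d / 2)) ℚ)) :
    Submodule ℚ (MvPolynomial (Fin (d / 2)) ℚ) :=
  J.restrictScalars ℚ ⊓ MvPolynomial.weightedHomogeneousSubmodule ℚ (wd d) n

/-- The number `𝔯_{d,n} = dim (I_d / P_+ I_d)_n` of minimal relations of `A(d)` in norm `n`. -/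
noncomputable def relCount (d n : ℕ) : ℕ :=
  finrank ℚ (piece d n (relIdeal d) ⧸
    (piece d n (plusIdeal d * relIdeal d)).submoduleOf (piece d n (relIdeal d)))

instance finite_piece (d n : ℕ) (J : Ideal (MvPolynomial (Fin (d / 2)) ℚ)) :
    Module.Finite ℚ (piece d n J) := by
  have : Module.Finite ℚ (MvPolynomial.weightedHomogeneousSubmodule ℚ (wd d) n) := by
    rw [Module.Finite.iff_fg]
    exact MvPolynomial.weightedHomogeneousSubmodule_fg (R := ℚ) (wd d)
      (fun i => by unfold wd; omega) n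
  exact Submodule.finiteDimensional_of_le inf_le_right

theorem count_eq (d n : ℕ) : relCount d n + finrank ℚ (piece d n (plusIdeal d * relIdeal d)) =
    finrank ℚ (piece d n (relIdeal d)) := by
  have hle : piece d n (plusIdeal d * relIdeal d) ≤ piece d n (relIdeal d) := by
    apply inf_le_inf_right
    exact fun x hx => Ideal.mul_le_right (I := plusIdeal d) (J := relIdeal d) hx
  rw [← (Submodule.submoduleOfEquivOfLe hle).finrank_eq]
  exact Submodule.finrank_quotient_add_finrank _

section homog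
variable {σ τ : Type} {w : σ → ℕ} {w' : τ → ℕ}

theorem homog_monomial (F : MvPolynomial σ ℚ →ₐ[ℚ] MvPolynomial τ ℚ)
    (hF : ∀ i, MvPolynomial.IsWeightedHomogeneous w' (F (MvPolynomial.X i)) (w i)) (s : σ →₀ ℕ) :
    MvPolynomial.IsWeightedHomogeneous w' (F (MvPolynomial.monomial s 1)) (Finsupp.weight w s) := by
  induction s using Finsupp.induction_linear with
  | zero =>
    rw [map_zero]
    have : (MvPolynomial.monomial (0 : σ →₀ ℕ) (1 : ℚ)) = 1 := rfl
    rw [this, map_one]
    exact MvPolynomial.isWeightedHomogeneous_one ℚ w'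
  | add f g hf hg =>
    have : (MvPolynomial.monomial (f + g) (1 : ℚ)) =
        MvPolynomial.monomial f 1 * MvPolynomial.monomial g 1 := by
      rw [MvPolynomial.monomial_mul, mul_one]
    rw [this, map_mul, map_add]
    exact hf.mul hg
  | single i n =>
    have : (MvPolynomial.monomial (Finsupp.single i n) (1 : ℚ)) = MvPolynomial.X i ^ n := by
      rw [MvPolynomial.X_pow_eq_monomial]
    rw [this, map_pow]
    have h2 : Finsupp.weight w (Finsupp.single i n) = n • w i := by
      rw [Finsupp.weight_apply, Finsupp.sum_single_index (by simp)]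
    rw [h2]
    exact (hF i).pow n

theorem homog_map (F : MvPolynomial σ ℚ →ₐ[ℚ] MvPolynomial τ ℚ)
    (hF : ∀ i, MvPolynomial.IsWeightedHomogeneous w' (F (MvPolynomial.X i)) (w i)) {n : ℕ}
    {P : MvPolynomial σ ℚ} (hP : MvPolynomial.IsWeightedHomogeneous w P n) :
    MvPolynomial.IsWeightedHomogeneous w' (F P) n := by
  rw [P.as_sum, map_sum]
  apply MvPolynomial.IsWeightedHomogeneous.sum
  intro s hs
  have h1 : (MvPolynomial.monomial s (MvPolynomial.coeff s P)) =
      (MvPolynomial.coeff s P) • (MvPolynomial.monomial s (1 : ℚ)) := by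
    rw [MvPolynomial.smul_monomial, smul_eq_mul, mul_one]
  rw [h1, map_smul]
  have h2 : Finsupp.weight w s = n := hP (MvPolynomial.mem_support_iff.1 hs)
  rw [← h2]
  exact (MvPolynomial.weightedHomogeneousSubmodule ℚ w' _).smul_mem _ (homog_monomial F hF s)

end homog

/-- Truncation to the first `⌊d/2⌋` variables. -/
noncomputable def theta (d : ℕ) : PP →ₐ[ℚ] MvPolynomial (Fin (d / 2)) ℚ :=
  MvPolynomial.aeval (fun i : ℕ => if h : i < d / 2 then MvPolynomial.X ⟨i, h⟩ else 0)

/-- The inclusion. -/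
noncomputable def iota (d : ℕ) : MvPolynomial (Fin (d / 2)) ℚ →ₐ[ℚ] PP :=
  MvPolynomial.rename (fun i : Fin (d / 2) => (i : ℕ))

theorem theta_X_of_lt {d i : ℕ} (h : i < d / 2) :
    theta d (MvPolynomial.X i) = MvPolynomial.X ⟨i, h⟩ := by
  unfold theta; rw [MvPolynomial.aeval_X, dif_pos h]

theorem theta_X_of_ge {d i : ℕ} (h : ¬ i < d / 2) : theta d (MvPolynomial.X i) = 0 := by
  unfold theta; rw [MvPolynomial.aeval_X, dif_neg h]

theorem iota_X {d : ℕ} (i : Fin (d / 2)) : iota d (MvPolynomial.X i) = MvPolynomial.X (i : ℕ) := by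
  unfold iota; rw [MvPolynomial.rename_X]

theorem theta_iota {d : ℕ} (P : MvPolynomial (Fin (d / 2)) ℚ) : theta d (iota d P) = P := by
  have : (theta d).comp (iota d) = AlgHom.id ℚ _ := by
    apply MvPolynomial.algHom_ext
    intro i
    rw [AlgHom.comp_apply, iota_X, theta_X_of_lt i.2]
    rfl
  exact congrArg (fun f => f P) this

theorem phi_theta (d : ℕ) (P : PP) : phi d (theta d P) = Phi (Fin d) P := by
  have : (phi d).comp (theta d) = Phi (Fin d) := by
    apply MvPolynomial.algHom_ext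
    intro i
    rw [AlgHom.comp_apply, Phi_X]
    by_cases h : i < d / 2
    · rw [theta_X_of_lt h]
      unfold phi
      rw [MvPolynomial.aeval_X]
    · rw [theta_X_of_ge h, map_zero]
      symm
      apply Subtype.ext
      apply Gr.ext'
      intro σ
      rw [del_apply, chi_neg]
      · rfl
      · intro hσ
        have h1 := Equiv.Perm.sum_cycleType_le σ
        rw [hσ, Multiset.sum_replicate, Fintype.card_fin, smul_eq_mul] at h1
        omega
  exact congrArg (fun f => f P) this

theorem phi_eq (d : ℕ) (P : MvPolynomial (Fin (d / 2)) ℚ) : phi d P = Phi (Fin d) (iota d P) := by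
  rw [← phi_theta, theta_iota]

theorem theta_homog {d n : ℕ} {P : PP} (hP : P ∈ WH n) :
    MvPolynomial.IsWeightedHomogeneous (wd d) (theta d P) n := by
  apply homog_map (w := wt) _ _ hP
  intro i
  by_cases h : i < d / 2
  · rw [theta_X_of_lt h]
    exact MvPolynomial.isWeightedHomogeneous_X ℚ (wd d) ⟨i, h⟩
  · rw [theta_X_of_ge h]
    exact MvPolynomial.isWeightedHomogeneous_zero ℚ (wd d) _

theorem iota_homog {d n : ℕ} {P : MvPolynomial (Fin (d / 2)) ℚ}
    (hP : MvPolynomial.IsWeightedHomogeneous (wd d) P n) : iota d P ∈ WH n := by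
  apply homog_map (w := wd d) _ _ hP
  intro i
  rw [iota_X]
  exact MvPolynomial.isWeightedHomogeneous_X ℚ wt (i : ℕ)

theorem theta_idealOfVars {d : ℕ} {P : PP} (hP : P ∈ MvPolynomial.idealOfVars ℕ ℚ) :
    theta d P ∈ plusIdeal d := by
  have h : MvPolynomial.idealOfVars ℕ ℚ ≤ (plusIdeal d).comap (theta d) := by
    rw [MvPolynomial.idealOfVars, Ideal.span_le]
    rintro _ ⟨i, rfl⟩
    change theta d (MvPolynomial.X i) ∈ plusIdeal d
    by_cases h : i < d / 2
    · rw [theta_X_of_lt h, plusIdeal, RingHom.mem_ker, MvPolynomial.constantCoeff_X]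
    · rw [theta_X_of_ge h]; exact Ideal.zero_mem _
  exact h hP

theorem theta_KK {d : ℕ} {P : PP} (hP : P ∈ KK d) : theta d P ∈ relIdeal d := by
  rw [relIdeal, RingHom.mem_ker, phi_theta]
  exact hP

theorem iota_plus {d : ℕ} {P : MvPolynomial (Fin (d / 2)) ℚ} (hP : P ∈ plusIdeal d) :
    iota d P ∈ MvPolynomial.idealOfVars ℕ ℚ := by
  rw [mem_idealOfVars, iota, MvPolynomial.constantCoeff_rename]
  exact hP

theorem iota_rel {d : ℕ} {P : MvPolynomial (Fin (d / 2)) ℚ} (hP : P ∈ relIdeal d) :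
    iota d P ∈ KK d := by
  rw [KK, RingHom.mem_ker, ← phi_eq]
  exact hP

theorem theta_mul {d : ℕ} {P : PP} (hP : P ∈ MvPolynomial.idealOfVars ℕ ℚ * KK d) :
    theta d P ∈ plusIdeal d * relIdeal d := by
  have h1 : (MvPolynomial.idealOfVars ℕ ℚ * KK d).map (theta d) ≤ plusIdeal d * relIdeal d := by
    rw [Ideal.map_mul]
    apply Ideal.mul_mono
    · rw [Ideal.map_le_iff_le_comap]; exact fun x hx => theta_idealOfVars hx
    · rw [Ideal.map_le_iff_le_comap]; exact fun x hx => theta_KK hx
  exact h1 (Ideal.mem_map_of_mem _ hP)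

theorem iota_mul {d : ℕ} {P : MvPolynomial (Fin (d / 2)) ℚ}
    (hP : P ∈ plusIdeal d * relIdeal d) : iota d P ∈ MvPolynomial.idealOfVars ℕ ℚ * KK d := by
  have h1 : (plusIdeal d * relIdeal d).map (iota d) ≤ MvPolynomial.idealOfVars ℕ ℚ * KK d := by
    rw [Ideal.map_mul]
    apply Ideal.mul_mono
    · rw [Ideal.map_le_iff_le_comap]; exact fun x hx => iota_plus hx
    · rw [Ideal.map_le_iff_le_comap]; exact fun x hx => iota_rel hx
  exact h1 (Ideal.mem_map_of_mem _ hP)

theorem map_GG (d n : ℕ) :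
    (GG n (2 * n - d)).map (theta d).toLinearMap = piece d n (relIdeal d) := by
  apply le_antisymm
  · rintro _ ⟨P, hP, rfl⟩
    exact ⟨theta_KK ((mem_KK_iff_GG hP.1).2 hP), theta_homog hP.1⟩
  · rintro Q ⟨hQ1, hQ2⟩
    have h1 : iota d Q ∈ WH n := iota_homog hQ2
    exact ⟨iota d Q, (mem_KK_iff_GG h1).1 (iota_rel hQ1), theta_iota Q⟩

theorem theta_monomial_eq_zero {d : ℕ} {s : ℕ →₀ ℕ} {i : ℕ} (hi : ¬ i < d / 2) (hs : s i ≠ 0)
    (c : ℚ) : theta d (MvPolynomial.monomial s c) = 0 := by
  have h1 : (MvPolynomial.monomial s c : PP) =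
      MvPolynomial.X i * MvPolynomial.monomial (s - Finsupp.single i 1) c := by
    rw [MvPolynomial.X, MvPolynomial.monomial_mul, one_mul, add_comm, sub_single_add hs]
  rw [h1, map_mul, theta_X_of_ge hi, zero_mul]

theorem iota_theta_monomial {d : ℕ} {s : ℕ →₀ ℕ} (hs : ∀ i, s i ≠ 0 → i < d / 2) (c : ℚ) :
    iota d (theta d (MvPolynomial.monomial s c)) = MvPolynomial.monomial s c := by
  have hC : ∀ c : ℚ, iota d (theta d (MvPolynomial.C c)) = MvPolynomial.C c := by
    intro c
    rw [← MvPolynomial.algebraMap_eq, AlgHom.commutes, AlgHom.commutes]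
  rw [MvPolynomial.monomial_eq, map_mul, map_mul, hC, map_finsuppProd, map_finsuppProd]
  congr 1
  apply Finset.prod_congr rfl
  intro i hi
  change iota d (theta d (MvPolynomial.X i ^ s i)) = MvPolynomial.X i ^ s i
  rw [map_pow, map_pow, theta_X_of_lt (hs i (Finsupp.mem_support_iff.1 hi)), iota_X]

/-- The elements of degree `n` killed by `θ` lie in `(P_+ K_d)_n + ℚ X_n`. -/
theorem ker_theta_le {d n : ℕ} {P : PP} (hP : P ∈ WH n) (h0 : theta d P = 0) :
    P ∈ LL d n ⊔ Submodule.span ℚ {(MvPolynomial.X (n - 1) : PP)} := by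
  have h1 : P = ∑ s ∈ P.support, (MvPolynomial.monomial s (MvPolynomial.coeff s P) -
      iota d (theta d (MvPolynomial.monomial s (MvPolynomial.coeff s P)))) := by
    rw [Finset.sum_sub_distrib, ← map_sum, ← map_sum, ← P.as_sum, h0, map_zero, sub_zero]
  rw [h1]
  apply Submodule.sum_mem
  intro s hs
  have hw : Finsupp.weight wt s = n := hP (MvPolynomial.mem_support_iff.1 hs)
  by_cases hall : ∀ i, s i ≠ 0 → i < d / 2
  · rw [iota_theta_monomial hall, sub_self]; exact Submodule.zero_mem _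
  · simp only [not_forall] at hall
    obtain ⟨i, hi, hid⟩ := hall
    rw [theta_monomial_eq_zero (by omega) hi, map_zero, sub_zero]
    have h2 : (MvPolynomial.monomial s (MvPolynomial.coeff s P) : PP) =
      MvPolynomial.monomial (s - Finsupp.single i 1) (MvPolynomial.coeff s P) * MvPolynomial.X i := by
      rw [MvPolynomial.X, MvPolynomial.monomial_mul, mul_one, sub_single_add hi]
    by_cases hsi : s - Finsupp.single i 1 = 0
    · have hs' : s = Finsupp.single i 1 := by
        have := sub_single_add hi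
        rw [hsi, zero_add] at this
        exact this.symm
      have hn : n - 1 = i := by
        have h3 := weight_add_single 0 i
        rw [zero_add, map_zero, ← hs', hw] at h3
        omega
      apply Submodule.mem_sup_right
      rw [h2, hsi, hn]
      have : (MvPolynomial.monomial 0 (MvPolynomial.coeff s P) : PP) * MvPolynomial.X i =
          (MvPolynomial.coeff s P) • MvPolynomial.X i := by
        rw [← MvPolynomial.C_mul']; rfl
      rw [this]
      exact Submodule.smul_mem _ _ (Submodule.mem_span_singleton_self _)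
    · apply Submodule.mem_sup_left
      refine ⟨?_, MvPolynomial.isWeightedHomogeneous_monomial _ _ _ hw⟩
      rw [h2]
      apply Ideal.mul_mem_mul
      · rw [mem_idealOfVars, MvPolynomial.constantCoeff_monomial, if_neg hsi]
      · rw [KK, RingHom.mem_ker, ← phi_theta, theta_X_of_ge (by omega), map_zero]

theorem X_mem_GG {d n : ℕ} (h : d < 2 * n) : (MvPolynomial.X (n - 1) : PP) ∈ GG n (2 * n - d) := by
  have h1 : (MvPolynomial.X (n - 1) : PP) ∈ WH n := by
    have := X_mem_WH (n - 1)
    have e : n - 1 + 1 = n := by omega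
    rwa [e] at this
  rw [← mem_KK_iff_GG h1, KK, RingHom.mem_ker, ← phi_theta, theta_X_of_ge (by omega), map_zero]

theorem map_MM {d n : ℕ} (h : d < 2 * n) :
    (LL d n ⊔ Submodule.span ℚ {(MvPolynomial.X (n - 1) : PP)}).map (theta d).toLinearMap =
      piece d n (plusIdeal d * relIdeal d) := by
  apply le_antisymm
  · rw [Submodule.map_sup, Submodule.map_span]
    apply sup_le
    · rintro _ ⟨P, hP, rfl⟩
      exact ⟨theta_mul hP.1, theta_homog hP.2⟩
    · rw [Submodule.span_le]
      rintro _ ⟨_, rfl, rfl⟩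
      have : (theta d).toLinearMap (MvPolynomial.X (n - 1)) = 0 := theta_X_of_ge (by omega)
      rw [this]
      exact Submodule.zero_mem _
  · rintro Q ⟨hQ1, hQ2⟩
    exact ⟨iota d Q, Submodule.mem_sup_left ⟨iota_mul hQ1, iota_homog hQ2⟩, theta_iota Q⟩

instance finite_LL (d n : ℕ) : Module.Finite ℚ (LL d n) :=
  Submodule.finiteDimensional_of_le (LL_le_GG d n)

theorem main_count {d n : ℕ} (h : d < 2 * n) :
    relCount d n + finrank ℚ (LL d n) + 1 = finrank ℚ (GG n (2 * n - d)) := by
  set x : PP := MvPolynomial.X (n - 1) with hx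
  have hMle : LL d n ⊔ Submodule.span ℚ {x} ≤ GG n (2 * n - d) := by
    apply sup_le (LL_le_GG d n)
    rw [Submodule.span_singleton_le_iff_mem]
    exact X_mem_GG h
  have hfin : Module.Finite ℚ ↥(LL d n ⊔ Submodule.span ℚ {x}) :=
    Submodule.finiteDimensional_of_le hMle
  have h1 := finrank_split (theta d).toLinearMap (GG n (2 * n - d))
  have h2 := finrank_split (theta d).toLinearMap (LL d n ⊔ Submodule.span ℚ {x})
  rw [map_GG] at h1
  rw [map_MM h] at h2
  have h3 : (LL d n ⊔ Submodule.span ℚ {x}) ⊓ LinearMap.ker (theta d).toLinearMap =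
      GG n (2 * n - d) ⊓ LinearMap.ker (theta d).toLinearMap := by
    apply le_antisymm
    · exact inf_le_inf_right _ hMle
    · rintro P ⟨hP1, hP2⟩
      exact ⟨ker_theta_le hP1.1 hP2, hP2⟩
  rw [h3] at h2
  have hxne : x ≠ 0 := MvPolynomial.X_ne_zero _
  have hxLL : x ∉ LL d n := by
    intro hc
    have := coeff_single_LL hc (n - 1)
    rw [hx, MvPolynomial.X, MvPolynomial.coeff_monomial, if_pos rfl] at this
    exact one_ne_zero this
  have h4 := Submodule.finrank_sup_add_finrank_inf_eq (LL d n) (Submodule.span ℚ {x})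
  have h5 : LL d n ⊓ Submodule.span ℚ {x} = ⊥ :=
    disjoint_iff.1 ((Submodule.disjoint_span_singleton' hxne).2 hxLL)
  rw [h5, finrank_bot, finrank_span_singleton hxne, add_zero] at h4
  have h6 := count_eq d n
  omega

theorem relCount_eq_zero {d n : ℕ} (h : 2 * n ≤ d) : relCount d n = 0 := by
  have h1 := map_GG d n
  have h2 : 2 * n - d = 0 := by omega
  rw [h2, GG_zero, Submodule.map_bot] at h1
  have h3 := count_eq d n
  rw [← h1, finrank_bot] at h3
  omega

/-- **Q1 of MP_15ac55_ag.** For all `d₀, n₀ ≥ 0` the sequence `k ↦ 𝔯_{d₀ + 2k, n₀ + k}` is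
eventually constant. -/
theorem result (d₀ n₀ : ℕ) :
    ∃ c K : ℕ, ∀ k, K ≤ k → relCount (d₀ + 2 * k) (n₀ + k) = c := by
  by_cases h : 2 * n₀ ≤ d₀
  · exact ⟨0, 0, fun k _ => relCount_eq_zero (by omega)⟩
  · -- the excess bound is constant along the diagonal
    obtain ⟨e, he⟩ : ∃ e, e = 2 * n₀ - d₀ := ⟨_, rfl⟩
    have he1 : 1 ≤ e := by omega
    obtain ⟨c, N, hc⟩ := rank_const e
    refine ⟨finrank ℚ (GG (2 * e) e) - c - 1, 2 * e + N, fun k hk => ?_⟩
    obtain ⟨j, hj⟩ : ∃ j, n₀ + k = 2 * e + j := ⟨n₀ + k - 2 * e, by omega⟩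
    have hjN : N ≤ j := by omega
    have hd : d₀ + 2 * k = 2 * (2 * e + j) - e := by omega
    have h1 := main_count (d := d₀ + 2 * k) (n := n₀ + k) (by omega)
    rw [hj, hd, LL_eq_WW, hc j hjN] at h1
    have h2 : 2 * (2 * e + j) - (2 * (2 * e + j) - e) = e := by omega
    rw [h2, finrank_GG_add (by omega)] at h1
    rw [hj, hd]
    omega

end Pool.Agent.Results.MP_15ac55_ag.Stabilisation
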